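import Pool.Agent.TH188.ET.Struct

/-! # Quaternionic structures of relatively algebraically closed subfields -/

set_option autoImplicit false

namespace Run7.h334.ET

open Pool.Agent.TH188.ET Pool.Agent.H315R3.ETC

section general

variable {K F : Type*} [Field K] [Field F]

theorem normFrom_sq_mul {a c : Fˣ} (s r : Fˣ) (h : NormFrom a c) :
    NormFrom (a * s ^ 2) (c * r ^ 2) := by
  obtain ⟨x, y, h⟩ := h
  refine ⟨x * r, y * r / s, ?_⟩
  have hs : (s : F) ≠ 0 := s.ne_zero
  rw [Units.val_mul, Units.val_mul, Units.val_pow_eq_pow_val, Units.val_pow_eq_pow_val, h]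
  field_simp

theorem normFrom_sq_iff (a c s r : Fˣ) : NormFrom (a * s ^ 2) (c * r ^ 2) ↔ NormFrom a c := by
  constructor
  · intro h
    have := normFrom_sq_mul s⁻¹ r⁻¹ h
    rwa [mul_assoc, mul_assoc, ← mul_pow, ← mul_pow, mul_inv_cancel, mul_inv_cancel, one_pow,
      mul_one, mul_one] at this
  · exact normFrom_sq_mul s r

theorem normFrom_right_iff (a c r : Fˣ) : NormFrom a (c * r ^ 2) ↔ NormFrom a c := by
  have := normFrom_sq_iff a c 1 r
  rwa [one_pow, mul_one] at this

theorem normFrom_left_iff (a c s : Fˣ) : NormFrom (a * s ^ 2) c ↔ NormFrom a c := by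
  have := normFrom_sq_iff a c s 1
  rwa [one_pow, mul_one] at this

theorem qiso_iff_slot (h2 : (2 : F) ≠ 0) (a b c d : Fˣ) :
    QIso a b c d ↔ ∃ x : Fˣ, NormFrom a (b * x) ∧ NormFrom c (d * x) ∧ NormFrom x (a * c) := by
  constructor
  · intro h
    obtain ⟨x, h1, h3⟩ := qiso_slot h2 h
    refine ⟨x, (qiso_iff h2 _ _ _).1 h1, (qiso_iff h2 _ _ _).1 h3, ?_⟩
    have h4 : QIso a x c x := (h1.symm.trans h).trans h3
    exact (qiso_iff h2 _ _ _).1 (((qiso_symm h2 x a).trans h4).trans (qiso_symm h2 c x))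
  · rintro ⟨x, h1, h3, h4⟩
    have h5 : QIso x a x c := (qiso_iff h2 _ _ _).2 h4
    have h6 : QIso a x c x := ((qiso_symm h2 a x).trans h5).trans (qiso_symm h2 x c)
    exact (((qiso_iff h2 _ _ _).2 h1).trans h6).trans ((qiso_iff h2 _ _ _).2 h3).symm

/-- An embedding of fields which induces an isomorphism of the square class groups and which
reflects the values of the binary norm forms. -/
structure Good (i : K →+* F) : Prop where
  sq : ∀ a : Kˣ, (∃ b : Fˣ, Units.map (i : K →* F) a = b ^ 2) → ∃ b : Kˣ, a = b ^ 2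
  surj : ∀ x : Fˣ, ∃ (a : Kˣ) (s : Fˣ), x = Units.map (i : K →* F) a * s ^ 2
  norm : ∀ a c : Kˣ, NormFrom (Units.map (i : K →* F) a) (Units.map (i : K →* F) c) → NormFrom a c

theorem normFrom_map (i : K →+* F) {a c : Kˣ} (h : NormFrom a c) :
    NormFrom (Units.map (i : K →* F) a) (Units.map (i : K →* F) c) := by
  obtain ⟨x, y, h⟩ := h
  refine ⟨i x, i y, ?_⟩
  show i c = i x ^ 2 - i a * i y ^ 2
  rw [h]
  simp

theorem qiso_map {i : K →+* F} (hi : Good i) (h2 : (2 : F) ≠ 0) (a b c d : Kˣ) :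
    QIso (Units.map (i : K →* F) a) (Units.map (i : K →* F) b) (Units.map (i : K →* F) c)
      (Units.map (i : K →* F) d) ↔ QIso a b c d := by
  have h2K : (2 : K) ≠ 0 := by
    intro h
    apply h2
    rw [← map_ofNat i 2, h, map_zero]
  rw [qiso_iff_slot h2, qiso_iff_slot h2K]
  constructor
  · rintro ⟨x, h1, h3, h4⟩
    obtain ⟨x1, s, rfl⟩ := hi.surj x
    refine ⟨x1, hi.norm _ _ ?_, hi.norm _ _ ?_, hi.norm _ _ ?_⟩
    · rw [← mul_assoc, normFrom_right_iff] at h1
      rwa [map_mul]
    · rw [← mul_assoc, normFrom_right_iff] at h3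
      rwa [map_mul]
    · rw [normFrom_left_iff] at h4
      rwa [map_mul]
  · rintro ⟨x, h1, h3, h4⟩
    refine ⟨Units.map (i : K →* F) x, ?_, ?_, ?_⟩
    · rw [← map_mul]
      exact normFrom_map i h1
    · rw [← map_mul]
      exact normFrom_map i h3
    · rw [← map_mul]
      exact normFrom_map i h4

/-- The two fields have the same quaternionic structure. -/
theorem structure_of_good {i : K →+* F} (hi : Good i) (h2 : (2 : F) ≠ 0) {S : QData}
    (hS : IsStructureOf F S) : IsStructureOf K S := by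
  obtain ⟨φ, hs, hk, hn, h0, hq⟩ := hS
  refine ⟨φ.comp (Units.map (i : K →* F)), ?_, ?_, ?_, h0, ?_⟩
  · intro g
    obtain ⟨x, rfl⟩ := hs g
    obtain ⟨a, s, rfl⟩ := hi.surj x
    refine ⟨a, ?_⟩
    rw [map_mul, (hk (s ^ 2)).2 ⟨s, rfl⟩, mul_one]
    rfl
  · intro a
    rw [MonoidHom.comp_apply, hk]
    constructor
    · exact hi.sq a
    · rintro ⟨b, rfl⟩
      exact ⟨Units.map (i : K →* F) b, map_pow _ _ _⟩
  · rw [MonoidHom.comp_apply, ← hn]
    congr 1
    ext
    simp
  · intro a b c d
    exact (hq _ _ _ _).trans (qiso_map hi h2 a b c d)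

end general

section closure

variable {F : Type*} [Field F]

/-- The elements of `F` which are algebraic over the subfield generated by the finite set `T`. -/
abbrev algOver (T : Finset F) : IntermediateField (Subfield.closure (T : Set F)) F :=
  algebraicClosure (Subfield.closure (T : Set F)) F

theorem mem_algOver {T : Finset F} {x : F} :
    x ∈ algOver T ↔ IsAlgebraic (Subfield.closure (T : Set F)) x := mem_algebraicClosure_iff

theorem mem_of_mem {T : Finset F} {x : F} (hx : x ∈ T) : x ∈ algOver T :=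
  mem_algOver.2 (isAlgebraic_algebraMap
    (⟨x, Subfield.subset_closure hx⟩ : Subfield.closure (T : Set F)))

theorem mem_of_sq {T : Finset F} {x : F} (hx : x ^ 2 ∈ algOver T) : x ∈ algOver T :=
  mem_algOver.2 ((mem_algOver.1 hx).of_pow two_pos)

/-- For a field with finitely many square classes the structure is that of a relatively
algebraically closed subfield of finite transcendence degree. -/
theorem exists_good (h2 : (2 : F) ≠ 0) (hfin : FinSq F) :
    ∃ T : Finset F, T.card ≤ Nat.card (Fˣ ⧸ (powMonoidHom 2 : Fˣ →* Fˣ).range) +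
      2 * Nat.card (Fˣ ⧸ (powMonoidHom 2 : Fˣ →* Fˣ).range) ^ 2 ∧
      Good (algebraMap (algOver T) F) := by
  classical
  obtain ⟨S, ⟨φ, hs, hk, -, -, -⟩, hG, -⟩ := exists_structure h2 hfin
  have : Fintype S.G := Fintype.ofFinite S.G
  have hcard : Nat.card (Fˣ ⧸ (powMonoidHom 2 : Fˣ →* Fˣ).range) = Fintype.card S.G := by
    have hker : (powMonoidHom 2 : Fˣ →* Fˣ).range = φ.ker := by
      ext a
      rw [MonoidHom.mem_ker, hk, MonoidHom.mem_range]
      constructor
      · rintro ⟨b, hb⟩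
        exact ⟨b, hb.symm⟩
      · rintro ⟨b, hb⟩
        exact ⟨b, hb.symm⟩
    rw [← Nat.card_eq_fintype_card]
    exact Nat.card_congr ((QuotientGroup.quotientMulEquivOfEq hker).trans
      (QuotientGroup.quotientKerEquivOfSurjective φ hs)).toEquiv
  choose t ht using hs
  have hw : ∀ g h : S.G, ∃ x y : F, NormFrom (t g) (t h) →
      ((t h : Fˣ) : F) = x ^ 2 - (t g : Fˣ) * y ^ 2 := by
    intro g h
    by_cases hn : NormFrom (t g) (t h)
    · obtain ⟨x, y, hxy⟩ := hn
      exact ⟨x, y, fun _ => hxy⟩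
    · exact ⟨0, 0, fun h' => absurd h' hn⟩
  choose x y hxy using hw
  let T : Finset F := (Finset.univ.image fun g => ((t g : Fˣ) : F)) ∪
    (Finset.univ.image fun q : S.G × S.G => x q.1 q.2) ∪
    (Finset.univ.image fun q : S.G × S.G => y q.1 q.2)
  have hT1 : ∀ g, ((t g : Fˣ) : F) ∈ algOver T := fun g => mem_of_mem
    (Finset.mem_union_left _ (Finset.mem_union_left _ (Finset.mem_image_of_mem _ (Finset.mem_univ g))))
  have hT2 : ∀ g h, x g h ∈ algOver T := fun g h => mem_of_mem
    (Finset.mem_union_left _ (Finset.mem_union_right _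
      (Finset.mem_image.2 ⟨(g, h), Finset.mem_univ _, rfl⟩)))
  have hT3 : ∀ g h, y g h ∈ algOver T := fun g h => mem_of_mem
    (Finset.mem_union_right _ (Finset.mem_image.2 ⟨(g, h), Finset.mem_univ _, rfl⟩))
  -- square roots
  have hsq : ∀ a : (algOver T)ˣ,
      (∃ b : Fˣ, Units.map (algebraMap (algOver T) F : algOver T →* F) a = b ^ 2) →
        ∃ b : (algOver T)ˣ, a = b ^ 2 := by
    rintro a ⟨b, hb⟩
    have hb' : ((a : algOver T) : F) = (b : F) ^ 2 := congrArg Units.val hb
    have hmem : (b : F) ∈ algOver T := mem_of_sq (by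
      rw [← hb']
      exact (a : algOver T).2)
    have hne : (⟨(b : F), hmem⟩ : algOver T) ≠ 0 := by
      intro h
      exact b.ne_zero (congrArg Subtype.val h)
    refine ⟨Units.mk0 _ hne, ?_⟩
    ext
    exact hb'
  -- the representatives in the subfield
  let t' : S.G → (algOver T)ˣ := fun g => Units.mk0 ⟨(t g : F), hT1 g⟩ (by
    intro h
    exact (t g).ne_zero (congrArg Subtype.val h))
  have ht' : ∀ g, Units.map (algebraMap (algOver T) F : algOver T →* F) (t' g) = t g := by
    intro g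
    ext
    rfl
  have hrep : ∀ z : Fˣ, ∃ s : Fˣ, z = t (φ z) * s ^ 2 := by
    intro z
    have h1 : φ ((t (φ z))⁻¹ * z) = 1 := by
      rw [map_mul, map_inv, ht, inv_mul_cancel]
    obtain ⟨s, hs⟩ := (hk _).1 h1
    exact ⟨s, by rw [← hs, mul_inv_cancel_left]⟩
  have hrep' : ∀ a : (algOver T)ˣ, ∃ (g : S.G) (s : (algOver T)ˣ), a = t' g * s ^ 2 := by
    intro a
    obtain ⟨s, hs⟩ := hrep (Units.map (algebraMap (algOver T) F : algOver T →* F) a)
    obtain ⟨r, hr⟩ := hsq ((t' (φ (Units.map (algebraMap (algOver T) F : algOver T →* F) a)))⁻¹ * a)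
      ⟨s, by rw [map_mul, map_inv, ht', inv_mul_eq_iff_eq_mul]; exact hs⟩
    exact ⟨_, r, by rw [← hr, mul_inv_cancel_left]⟩
  have hTcard : T.card ≤ Fintype.card S.G + 2 * Fintype.card S.G ^ 2 := by
    have e1 : (Finset.univ.image fun g => ((t g : Fˣ) : F)).card ≤ Fintype.card S.G :=
      Finset.card_image_le
    have e2 : (Finset.univ.image fun q : S.G × S.G => x q.1 q.2).card ≤ Fintype.card S.G ^ 2 := by
      refine Finset.card_image_le.trans ?_
      rw [Finset.card_univ, Fintype.card_prod, pow_two]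
    have e3 : (Finset.univ.image fun q : S.G × S.G => y q.1 q.2).card ≤ Fintype.card S.G ^ 2 := by
      refine Finset.card_image_le.trans ?_
      rw [Finset.card_univ, Fintype.card_prod, pow_two]
    have e4 := (Finset.card_union_le ((Finset.univ.image fun g => ((t g : Fˣ) : F)) ∪
      (Finset.univ.image fun q : S.G × S.G => x q.1 q.2))
      (Finset.univ.image fun q : S.G × S.G => y q.1 q.2))
    have e5 := (Finset.card_union_le (Finset.univ.image fun g => ((t g : Fˣ) : F))
      (Finset.univ.image fun q : S.G × S.G => x q.1 q.2))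
    have e6 : T.card ≤ _ := e4
    omega
  rw [hcard]
  refine ⟨T, hTcard, hsq, fun z => ?_, fun a c hac => ?_⟩
  · obtain ⟨s, hs⟩ := hrep z
    exact ⟨t' (φ z), s, by rw [ht']; exact hs⟩
  · obtain ⟨g, s, rfl⟩ := hrep' a
    obtain ⟨h, r, rfl⟩ := hrep' c
    rw [normFrom_sq_iff]
    rw [map_mul, map_mul, map_pow, map_pow, normFrom_sq_iff, ht', ht'] at hac
    refine ⟨⟨x g h, hT2 g h⟩, ⟨y g h, hT3 g h⟩, ?_⟩
    apply Subtype.ext
    exact hxy g h hac

end closure

section fintr

/-- `K` is algebraic over a subfield which is generated by at most `m` elements. -/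
def FinTr (K : Type) [Field K] (m : ℕ) : Prop :=
  ∃ T : Finset K, T.card ≤ m ∧ Algebra.IsAlgebraic (Subfield.closure (T : Set K)) K

theorem finTr_algOver {F : Type} [Field F] (T : Finset F) : FinTr (algOver T) T.card := by
  classical
  let i : algOver T →+* F := algebraMap (algOver T) F
  let T' : Finset (algOver T) := T.attach.image fun t => ⟨t.1, mem_of_mem t.2⟩
  have himg : i '' (T' : Set (algOver T)) = (T : Set F) := by
    ext x
    constructor
    · rintro ⟨y, hy, rfl⟩
      obtain ⟨t, -, rfl⟩ := Finset.mem_image.1 (Finset.mem_coe.1 hy)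
      exact t.2
    · intro hx
      exact ⟨⟨x, mem_of_mem hx⟩, Finset.mem_coe.2 (Finset.mem_image.2
        ⟨⟨x, hx⟩, Finset.mem_attach _ _, rfl⟩), rfl⟩
  have hmap : (Subfield.closure (T' : Set (algOver T))).map i = Subfield.closure (T : Set F) := by
    rw [RingHom.map_field_closure, himg]
  have hmem : ∀ y : F, y ∈ (Subfield.closure (T' : Set (algOver T))).map i ↔
      y ∈ Subfield.closure (T : Set F) := fun y => by rw [hmap]
  refine ⟨T', (Finset.card_image_le.trans (by rw [Finset.card_attach])), ⟨fun x => ?_⟩⟩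
  have hx : IsAlgebraic (Subfield.closure (T : Set F)) (i x) := mem_algOver.1 x.2
  let f : Subfield.closure (T' : Set (algOver T)) →+* Subfield.closure (T : Set F) :=
    (i.comp (Subfield.closure (T' : Set (algOver T))).subtype).codRestrict _ (fun z =>
      (hmem _).1 ⟨z, z.2, rfl⟩)
  refine IsAlgebraic.of_ringHom_of_comp_eq (f := f) (g := i) hx ?_ i.injective rfl
  rintro ⟨y, hy⟩
  obtain ⟨z, hz, hzy⟩ := (hmem y).2 hy
  exact ⟨⟨z, hz⟩, Subtype.ext hzy⟩

end fintr

/-- the number of square classes -/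
noncomputable def sqClasses (F : Type) [Field F] : ℕ :=
  Nat.card (Fˣ ⧸ (powMonoidHom 2 : Fˣ →* Fˣ).range)

theorem card_structure {F : Type} [Field F] {S : QData} (hS : IsStructureOf F S) :
    Nonempty ((Fˣ ⧸ (powMonoidHom 2 : Fˣ →* Fˣ).range) ≃ S.G) := by
  obtain ⟨φ, hs, hk, -⟩ := hS
  have hker : (powMonoidHom 2 : Fˣ →* Fˣ).range = φ.ker := by
    ext a
    rw [MonoidHom.mem_ker, hk, MonoidHom.mem_range]
    constructor
    · rintro ⟨b, hb⟩
      exact ⟨b, hb.symm⟩
    · rintro ⟨b, hb⟩
      exact ⟨b, hb.symm⟩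
  exact ⟨((QuotientGroup.quotientMulEquivOfEq hker).trans
    (QuotientGroup.quotientKerEquivOfSurjective φ hs)).toEquiv⟩

theorem two_ne {F : Type} [Field F] (h2 : (2 : F) ≠ 0) (T : Finset F) :
    (2 : algOver T) ≠ 0 := by
  intro h
  apply h2
  have h1 : algebraMap (algOver T) F 2 = algebraMap (algOver T) F 0 := congrArg _ h
  rwa [map_ofNat, map_zero] at h1

/-- The reduction: a subfield with the same structure, the same number of square classes, and
algebraic over a subfield with at most `n + 2 n ^ 2` generators. -/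
theorem reduction {F : Type} [Field F] (h2 : (2 : F) ≠ 0) (hfin : FinSq F) :
    ∃ K : Subfield F, (∀ x : F, IsAlgebraic K x → x ∈ K) ∧ FinSq K ∧
      sqClasses K = sqClasses F ∧ FinTr K (sqClasses F + 2 * sqClasses F ^ 2) ∧
      ∀ S : QData, IsStructureOf F S → IsStructureOf K S := by
  obtain ⟨T, hT, hg⟩ := exists_good h2 hfin
  obtain ⟨S0, hS0, hS0fin, -⟩ := exists_structure h2 hfin
  have hK0 : IsStructureOf (algOver T) S0 := structure_of_good hg h2 hS0
  obtain ⟨e⟩ := card_structure hK0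
  obtain ⟨e'⟩ := card_structure hS0
  refine ⟨(algOver T).toSubfield, ?_, Finite.of_equiv _ e.symm, Nat.card_congr (e.trans e'.symm), ?_,
    fun S hS => structure_of_good hg h2 hS⟩
  · intro x hx
    have h1 : IsAlgebraic (algOver T) x := hx
    exact mem_algOver.2 (h1.restrictScalars _)
  · obtain ⟨T', h1, h3⟩ := finTr_algOver T
    exact ⟨T', h1.trans hT, h3⟩

/-- Q1 for fields which are algebraic over a subfield with a bounded number of generators. -/
theorem q1_iff :
    (∀ (F : Type) [Field F], (2 : F) ≠ 0 → FinSq F → ∃ S, Elem S ∧ IsStructureOf F S) ↔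
    ∀ (F : Type) [Field F], (2 : F) ≠ 0 → FinSq F →
      FinTr F (sqClasses F + 2 * sqClasses F ^ 2) → ∃ S, Elem S ∧ IsStructureOf F S := by
  constructor
  · intro h F _ h2 hfin _
    exact h F h2 hfin
  · intro h F _ h2 hfin
    obtain ⟨K, -, hfK, hcK, htr, hst⟩ := reduction h2 hfin
    have h2K : (2 : K) ≠ 0 := by
      intro h0
      apply h2
      have h1 : K.subtype 2 = K.subtype 0 := congrArg _ h0
      rwa [map_ofNat, map_zero] at h1
    rw [← hcK] at htr
    obtain ⟨S, hS, hKS⟩ := h K h2K hfK htr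
    obtain ⟨S0, hS0, -, -⟩ := exists_structure h2 hfin
    exact ⟨S0, Elem.iso S S0 hS (iso_of_structure hKS (hst S0 hS0)), hS0⟩

end Run7.h334.ET
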